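import Mathlib

open scoped MatrixGroups
open Matrix

namespace Pool.Agent.Results.MP_5bb224_al.IntersectionProperty

section field

variable {F : Type*} [Field F] {p : ℕ} [Fact p.Prime] [CharP F p]

/-- Elements of a finite subfield of order `p ^ e` are fixed by the `e`-th iterate of Frobenius. -/
lemma periodic_of_mem [Finite F] {e : ℕ} {K : Subfield F} (hK : Nat.card K = p ^ e) {x : F}
    (hx : x ∈ K) : Function.IsPeriodicPt (frobenius F p) e x := by
  have : Fintype K := Fintype.ofFinite K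
  have h := FiniteField.pow_card (⟨x, hx⟩ : K)
  rw [← Nat.card_eq_fintype_card, hK] at h
  have h' := congrArg (Subtype.val) h
  simp only [SubmonoidClass.mk_pow] at h'
  rw [Function.IsPeriodicPt, Function.IsFixedPt, iterate_frobenius]
  exact h'

lemma mem_bot_of_periodic {e₁ e₂ : ℕ} (hcop : Nat.Coprime e₁ e₂) {x : F}
    (h₁ : Function.IsPeriodicPt (frobenius F p) e₁ x)
    (h₂ : Function.IsPeriodicPt (frobenius F p) e₂ x) : x ∈ (⊥ : Subfield F) := by
  have h := h₁.gcd h₂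
  rw [Nat.Coprime] at hcop
  rw [hcop, Function.IsPeriodicPt, Function.IsFixedPt, iterate_frobenius, pow_one] at h
  exact (Subfield.mem_bot_iff_pow_eq_self F p).mpr h

variable [Finite F]

/-- Linear disjointness of the two subfields, in the form we need. -/
lemma key {e₁ e₂ : ℕ} (hcop : Nat.Coprime e₁ e₂) {K₁ K₂ : Subfield F}
    (hK₁ : Nat.card K₁ = p ^ e₁) (hK₂ : Nat.card K₂ = p ^ e₂)
    {u v a b : F} (hu : u ∈ K₁) (hv : v ∈ K₂) (ha : a ∈ K₁) (hb : b ∈ K₂)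
    (h2 : (2 : F) ≠ 0)
    (h : 2 * u * v = a + b) : u ∈ (⊥ : Subfield F) ∨ v ∈ (⊥ : Subfield F) := by
  by_cases hv1 : Function.IsPeriodicPt (frobenius F p) e₁ v
  · right
    exact mem_bot_of_periodic hcop hv1 (periodic_of_mem hK₂ hv)
  · left
    have hu1 := periodic_of_mem hK₁ hu
    have ha1 := periodic_of_mem hK₁ ha
    rw [Function.IsPeriodicPt, Function.IsFixedPt, iterate_frobenius] at hu1 ha1 hv1
    have h' := congrArg (fun x => (frobenius F p)^[e₁] x) h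
    simp only [iterate_frobenius] at h'
    rw [add_pow_char_pow, mul_pow, mul_pow, hu1, ha1] at h'
    have h22 : (2 : F) ^ p ^ e₁ = 2 := by
      have : (2 : F) ∈ K₁ := by simp
      have := periodic_of_mem hK₁ this
      rwa [Function.IsPeriodicPt, Function.IsFixedPt, iterate_frobenius] at this
    rw [h22] at h'
    have hsub : 2 * u * (v ^ p ^ e₁ - v) = b ^ p ^ e₁ - b := by
      linear_combination h' - h
    have hne : v ^ p ^ e₁ - v ≠ 0 := sub_ne_zero.mpr hv1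
    have hu' : u = (b ^ p ^ e₁ - b) / (2 * (v ^ p ^ e₁ - v)) := by
      field_simp
      linear_combination hsub
    have h2K : (2 : F) ∈ K₂ := by simp
    have hu2 : u ∈ K₂ := by
      rw [hu']
      exact div_mem (sub_mem (pow_mem hb _) hb) (mul_mem h2K (sub_mem (pow_mem hv _) hv))
    exact mem_bot_of_periodic hcop (periodic_of_mem hK₁ hu) (periodic_of_mem hK₂ hu2)

omit [Finite F] in
/-- If `j` is a primitive element of the field with `p ^ e` elements, `e ≥ 3`, `p` odd, then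
`(j + j⁻¹) ^ 2` is not in the prime field. -/
lemma omega_sq_not_mem {e : ℕ} (he : 3 ≤ e) (hp2 : p ≠ 2) {K : Subfield F}
    (hK : Nat.card K = p ^ e) (j : Kˣ) (hj : Subgroup.zpowers j = ⊤) :
    (((j : K) : F) + ((j : K) : F)⁻¹) ^ 2 ∉ (⊥ : Subfield F) := by
  intro hmem
  have hp : p.Prime := Fact.out
  have hp3 : 3 ≤ p := by
    have := hp.two_le
    omega
  set x : F := ((j : K) : F) with hx
  have hx0 : x ≠ 0 := by
    simp [hx]
  have hord : orderOf j = p ^ e - 1 := by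
    rw [orderOf_eq_card_of_zpowers_eq_top hj, Nat.card_units, hK]
  have hxord : orderOf x = p ^ e - 1 := by
    rw [← hord, ← orderOf_units]
    exact orderOf_injective (K.subtype : K →* F) Subtype.val_injective (j : K)
  rw [Subfield.mem_bot_iff_pow_eq_self F p] at hmem
  have hsq : ((x + x⁻¹) ^ p) ^ 2 = (x + x⁻¹) ^ 2 := by
    rw [← pow_mul, mul_comm p 2, pow_mul]; exact hmem
  have hodd : Odd p := hp.odd_of_ne_two hp2
  have hpp : ((x + x⁻¹) ^ p) ^ p = x + x⁻¹ := by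
    rcases sq_eq_sq_iff_eq_or_eq_neg.mp hsq with h | h
    · rw [h, h]
    · rw [h, hodd.neg_pow, h, neg_neg]
  have h1 : (x ^ p + (x ^ p)⁻¹) ^ p = x + x⁻¹ := by
    rw [add_pow_char] at hpp
    rw [← inv_pow, hpp]
  rw [add_pow_char] at h1
  have h2 : x ^ (p * p) + (x ^ (p * p))⁻¹ = x + x⁻¹ := by
    rw [pow_mul, ← h1, inv_pow]
  set y := x ^ (p * p) with hy
  have hy0 : y ≠ 0 := pow_ne_zero _ hx0
  have h3 : (y - x) * (y * x - 1) = 0 := by
    field_simp at h2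
    linear_combination h2
  have hlt : p * p + 1 < p ^ e - 1 := by
    have h4 : p ^ 3 ≤ p ^ e := Nat.pow_le_pow_right (by omega) he
    have h5 : p ^ 3 = p * p * p := by ring
    have h6 : p * p * 3 ≤ p * p * p := Nat.mul_le_mul_left _ hp3
    have h7 : 3 * 3 ≤ p * p := Nat.mul_le_mul hp3 hp3
    omega
  rcases mul_eq_zero.mp h3 with h | h
  · have h4 : x ^ (p * p - 1) = 1 := by
      have h5 : x ^ (p * p - 1) * x = x := by
        rw [← pow_succ, Nat.sub_add_cancel (Nat.mul_pos hp.pos hp.pos)]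
        exact sub_eq_zero.mp h
      exact mul_right_cancel₀ hx0 (by rw [h5, one_mul])
    have h6 : 0 < p * p - 1 := by
      have h7 : 3 * 3 ≤ p * p := Nat.mul_le_mul hp3 hp3
      omega
    have := orderOf_le_of_pow_eq_one h6 h4
    omega
  · have h4 : x ^ (p * p + 1) = 1 := by
      rw [pow_succ]
      exact sub_eq_zero.mp h
    have := orderOf_le_of_pow_eq_one (by omega) h4
    omega

end field

section conj

variable {F : Type*} [Field F]

/-- Conjugation of `SL(2, F)` by an invertible matrix. -/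
def conjHom (R R' : Matrix (Fin 2) (Fin 2) F) (h : R * R' = 1) : SL(2, F) →* SL(2, F) where
  toFun S := ⟨R' * (S : Matrix (Fin 2) (Fin 2) F) * R, by
    rw [Matrix.det_mul, Matrix.det_mul, S.det_coe, mul_one, ← Matrix.det_mul,
      mul_eq_one_comm.mp h, Matrix.det_one]⟩
  map_one' := by
    apply Subtype.ext
    change R' * (1 : Matrix (Fin 2) (Fin 2) F) * R = 1
    rw [Matrix.mul_one, mul_eq_one_comm.mp h]
  map_mul' S S' := by
    apply Subtype.ext
    change R' * ((S : Matrix (Fin 2) (Fin 2) F) * (S' : Matrix (Fin 2) (Fin 2) F)) * R =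
      (R' * (S : Matrix (Fin 2) (Fin 2) F) * R) * (R' * (S' : Matrix (Fin 2) (Fin 2) F) * R)
    calc R' * ((S : Matrix (Fin 2) (Fin 2) F) * (S' : Matrix (Fin 2) (Fin 2) F)) * R
          = R' * (S : Matrix (Fin 2) (Fin 2) F) * 1 * (S' : Matrix (Fin 2) (Fin 2) F) * R := by
          simp only [Matrix.mul_one, Matrix.mul_assoc]
      _ = R' * (S : Matrix (Fin 2) (Fin 2) F) * (R * R') *
            (S' : Matrix (Fin 2) (Fin 2) F) * R := by rw [h]
      _ = _ := by simp only [Matrix.mul_assoc]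

/-- Matrices in `SL(2, F)` with entries in a subfield. -/
def subSL (K : Subfield F) : Subgroup SL(2, F) :=
  (Matrix.SpecialLinearGroup.map (n := Fin 2) K.subtype).range

lemma mem_subSL_of {K : Subfield F} {S : SL(2, F)}
    (h : ∀ i j, (S : Matrix (Fin 2) (Fin 2) F) i j ∈ K) :
    S ∈ subSL K := by
  have hdet : Matrix.det (Matrix.of fun i j : Fin 2 =>
      (⟨(S : Matrix (Fin 2) (Fin 2) F) i j, h i j⟩ : K)) = 1 := by
    apply Subtype.val_injective
    have h1 := K.subtype.map_det (Matrix.of fun i j : Fin 2 =>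
      (⟨(S : Matrix (Fin 2) (Fin 2) F) i j, h i j⟩ : K))
    have h2 : (K.subtype.mapMatrix (Matrix.of fun i j : Fin 2 =>
      (⟨(S : Matrix (Fin 2) (Fin 2) F) i j, h i j⟩ : K)) : Matrix (Fin 2) (Fin 2) F)
        = (S : Matrix (Fin 2) (Fin 2) F) := by
      ext i j; rfl
    rw [h2, S.det_coe] at h1
    exact h1
  refine ⟨⟨_, hdet⟩, ?_⟩
  apply Subtype.ext
  ext i j
  rfl

lemma entries_of_mem_subSL {K : Subfield F} {S : SL(2, F)} (h : S ∈ subSL K) (i j : Fin 2) :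
    (S : Matrix (Fin 2) (Fin 2) F) i j ∈ K := by
  obtain ⟨M, rfl⟩ := h
  exact ((M : Matrix (Fin 2) (Fin 2) K) i j).2

end conj

/-- Intersection property of the triple `S₁, S₂, S₃` in `PSL(2, F)`, where `F` has
`p ^ (e₁ * e₂)` elements. The subfields `K₁`, `K₂` of order `p ^ e₁`, `p ^ e₂` are those of the
problem, `j₁`, `j₂` are primitive elements of them, and `s` is either square root of `Ω`. -/
theorem result
    (p e₁ e₂ : ℕ) (hp : p.Prime) (hp2 : p ≠ 2) (he₁ : 1 < e₁) (he₂ : 1 < e₂)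
    (ho₁ : Odd e₁) (ho₂ : Odd e₂) (hcop : Nat.Coprime e₁ e₂)
    (F : Type*) [Field F] (hF : Nat.card F = p ^ (e₁ * e₂))
    (K₁ K₂ : Subfield F) (hK₁ : Nat.card K₁ = p ^ e₁) (hK₂ : Nat.card K₂ = p ^ e₂)
    (j₁ : K₁ˣ) (j₂ : K₂ˣ) (hj₁ : Subgroup.zpowers j₁ = ⊤) (hj₂ : Subgroup.zpowers j₂ = ⊤)
    (ω₁ ω₂ s : F) (hω₁ : ω₁ = ((j₁ : K₁) : F) + ((j₁ : K₁) : F)⁻¹)
    (hω₂ : ω₂ = ((j₂ : K₂) : F) + ((j₂ : K₂) : F)⁻¹)
    (hs : s ^ 2 = ω₁ ^ 2 * ω₂ ^ 2 - 4 * (ω₁ ^ 2 + ω₂ ^ 2)) :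
    ∃ S₁ S₂ S₃ : SL(2, F),
      (S₁ : Matrix (Fin 2) (Fin 2) F) = (1 / 2 : F) • !![ω₁, ω₁ + 2; ω₁ - 2, ω₁] ∧
      (S₂ : Matrix (Fin 2) (Fin 2) F) = (1 / 2 : F) • !![2 + ω₁, ω₁; -ω₁, 2 - ω₁] ∧
      (S₃ : Matrix (Fin 2) (Fin 2) F) =
        !![ω₂ / (2 * ω₁) * (ω₁ - 2), s / (2 * ω₁);
           s / (2 * ω₁), ω₂ / (2 * ω₁) * (ω₁ + 2)] ∧
      Subgroup.closure {(S₁ : PSL(2, F)), (S₂ : PSL(2, F))} ⊓
        Subgroup.closure {(S₂ : PSL(2, F)), (S₃ : PSL(2, F))} =
        Subgroup.zpowers (S₂ : PSL(2, F)) := by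
  have : Fact p.Prime := ⟨hp⟩
  have he₁' : 3 ≤ e₁ := by
    rcases ho₁ with ⟨k, hk⟩; omega
  have he₂' : 3 ≤ e₂ := by
    rcases ho₂ with ⟨k, hk⟩; omega
  have : Finite F := by
    apply Nat.finite_of_card_ne_zero
    rw [hF]
    exact pow_ne_zero _ hp.ne_zero
  have : CharP F p := by
    have : Fintype F := Fintype.ofFinite F
    exact charP_of_card_eq_prime_pow (f := e₁ * e₂) (by rw [← Nat.card_eq_fintype_card, hF])
  have h2 : (2 : F) ≠ 0 := by
    intro h
    have h' : ((2 : ℕ) : F) = 0 := by exact_mod_cast h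
    rw [CharP.cast_eq_zero_iff F p] at h'
    exact hp2 ((Nat.prime_dvd_prime_iff_eq hp Nat.prime_two).mp h')
  have hn₁ : ω₁ ^ 2 ∉ (⊥ : Subfield F) := by
    rw [hω₁]; exact omega_sq_not_mem he₁' hp2 hK₁ j₁ hj₁
  have hn₂ : ω₂ ^ 2 ∉ (⊥ : Subfield F) := by
    rw [hω₂]; exact omega_sq_not_mem he₂' hp2 hK₂ j₂ hj₂
  have hm₁ : ω₁ ∈ K₁ := by
    rw [hω₁]; exact add_mem (j₁ : K₁).2 (inv_mem (j₁ : K₁).2)
  have hm₂ : ω₂ ∈ K₂ := by
    rw [hω₂]; exact add_mem (j₂ : K₂).2 (inv_mem (j₂ : K₂).2)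
  have h₁0 : ω₁ ≠ 0 := by
    rintro h
    apply hn₁
    rw [h]
    simp
  have h₂0 : ω₂ ≠ 0 := by
    rintro h
    apply hn₂
    rw [h]
    simp
  have h2K₁ : (2 : F) ∈ K₁ := by simp
  have h2K₂ : (2 : F) ∈ K₂ := by simp
  have h4K₁ : (4 : F) ∈ K₁ := by simp
  have h4K₂ : (4 : F) ∈ K₂ := by simp
  have hbot : ∀ x : F, x ∈ K₁ → x ∈ K₂ → x ∈ (⊥ : Subfield F) := fun x hx₁ hx₂ =>
    mem_bot_of_periodic hcop (periodic_of_mem hK₁ hx₁) (periodic_of_mem hK₂ hx₂)
  -- the key number is not in `K₁ + K₂`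
  have hkey : ∀ u ∈ K₁, ∀ v ∈ K₂, s / (ω₁ * ω₂) ≠ u + v := by
    intro u hu v hv huv
    have hsq : (u + v) ^ 2 = 1 - 4 / ω₁ ^ 2 - 4 / ω₂ ^ 2 := by
      rw [← huv, div_pow, hs]
      field_simp
      ring
    have h3 : 2 * u * v = (1 - 4 / ω₁ ^ 2 - u ^ 2) + (- (4 / ω₂ ^ 2) - v ^ 2) := by
      linear_combination hsq
    rcases key hcop hK₁ hK₂ hu hv
      (sub_mem (sub_mem (one_mem _) (div_mem h4K₁ (pow_mem hm₁ 2))) (pow_mem hu 2))
      (sub_mem (neg_mem (div_mem h4K₂ (pow_mem hm₂ 2))) (pow_mem hv 2)) h2 h3 with h | h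
    · -- `u` in the prime field: then `4 / ω₁ ^ 2 ∈ K₂`
      have hu2 : u ∈ K₂ := (bot_le : (⊥ : Subfield F) ≤ K₂) h
      have h4 : ω₁ ^ 2 ∈ K₂ := by
        have h5 : 4 / ω₁ ^ 2 ∈ K₂ := by
          have : 4 / ω₁ ^ 2 = 1 - 4 / ω₂ ^ 2 - (u + v) ^ 2 := by linear_combination hsq
          rw [this]
          exact sub_mem (sub_mem (one_mem _) (div_mem h4K₂ (pow_mem hm₂ 2)))
            (pow_mem (add_mem hu2 hv) 2)
        have h6 : ω₁ ^ 2 = 4 / (4 / ω₁ ^ 2) := by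
          have : (4 : F) ≠ 0 := by
            have : (4 : F) = 2 * 2 := by norm_num
            rw [this]; exact mul_ne_zero h2 h2
          field_simp
        rw [h6]
        exact div_mem h4K₂ h5
      exact hn₁ (hbot _ (pow_mem hm₁ 2) h4)
    · have hv2 : v ∈ K₁ := (bot_le : (⊥ : Subfield F) ≤ K₁) h
      have h4 : ω₂ ^ 2 ∈ K₁ := by
        have h5 : 4 / ω₂ ^ 2 ∈ K₁ := by
          have : 4 / ω₂ ^ 2 = 1 - 4 / ω₁ ^ 2 - (u + v) ^ 2 := by linear_combination hsq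
          rw [this]
          exact sub_mem (sub_mem (one_mem _) (div_mem h4K₁ (pow_mem hm₁ 2)))
            (pow_mem (add_mem hu hv2) 2)
        have h6 : ω₂ ^ 2 = 4 / (4 / ω₂ ^ 2) := by
          have : (4 : F) ≠ 0 := by
            have : (4 : F) = 2 * 2 := by norm_num
            rw [this]; exact mul_ne_zero h2 h2
          field_simp
        rw [h6]
        exact div_mem h4K₁ h5
      exact hn₂ (hbot _ h4 (pow_mem hm₂ 2))
  set b : F := s / (2 * ω₁ * ω₂) - 1 / 2 - 1 / ω₁ with hb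
  have hbkey : ∀ u ∈ K₁, ∀ v ∈ K₂, b ≠ u + v := by
    intro u hu v hv huv
    apply hkey (2 * (u + 1 / 2 + 1 / ω₁))
      (mul_mem h2K₁ (add_mem (add_mem hu (div_mem (one_mem _) h2K₁))
        (div_mem (one_mem _) hm₁))) (2 * v) (mul_mem h2K₂ hv)
    have : s / (ω₁ * ω₂) = 2 * (b + 1 / 2 + 1 / ω₁) := by
      rw [hb]
      field_simp
      ring
    rw [this, huv]
    ring
  -- the three matrices
  have hdet₁ : Matrix.det ((1 / 2 : F) • !![ω₁, ω₁ + 2; ω₁ - 2, ω₁]) = 1 := by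
    rw [Matrix.det_smul, Matrix.det_fin_two_of]
    simp only [Fintype.card_fin]
    field_simp
    ring
  have hdet₂ : Matrix.det ((1 / 2 : F) • !![2 + ω₁, ω₁; -ω₁, 2 - ω₁]) = 1 := by
    rw [Matrix.det_smul, Matrix.det_fin_two_of]
    simp only [Fintype.card_fin]
    field_simp
    ring
  have hdet₃ : Matrix.det !![ω₂ / (2 * ω₁) * (ω₁ - 2), s / (2 * ω₁);
           s / (2 * ω₁), ω₂ / (2 * ω₁) * (ω₁ + 2)] = 1 := by
    rw [Matrix.det_fin_two_of]
    field_simp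
    linear_combination -hs
  refine ⟨⟨_, hdet₁⟩, ⟨_, hdet₂⟩, ⟨_, hdet₃⟩, rfl, rfl, rfl, ?_⟩
  set S₁ : SL(2, F) := ⟨_, hdet₁⟩ with hS₁
  set S₂ : SL(2, F) := ⟨_, hdet₂⟩ with hS₂
  set S₃ : SL(2, F) := ⟨_, hdet₃⟩ with hS₃
  -- change of basis
  set P : Matrix (Fin 2) (Fin 2) F := !![ω₁ / 2, 1; -(ω₁ / 2), 0] with hP
  set Q : Matrix (Fin 2) (Fin 2) F := !![0, -(2 / ω₁); 1, 1] with hQ
  have hPQ : P * Q = 1 := by
    rw [hP, hQ, Matrix.mul_fin_two, Matrix.one_fin_two]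
    congr 1
    field_simp
    simp [h2]
  set T : Matrix (Fin 2) (Fin 2) F := !![1, b; 0, 1] with hT
  set T' : Matrix (Fin 2) (Fin 2) F := !![1, -b; 0, 1] with hT'
  have hTT : T * T' = 1 := by
    rw [hT, hT', Matrix.mul_fin_two, Matrix.one_fin_two]
    simp
  have hPT : (P * T) * (T' * Q) = 1 := by
    calc (P * T) * (T' * Q) = P * (T * T') * Q := by simp only [Matrix.mul_assoc]
      _ = 1 := by rw [hTT, Matrix.mul_one, hPQ]
  have hQP : Q * P = 1 := mul_eq_one_comm.mp hPQ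
  have c₁ : (conjHom P Q hPQ S₁ : Matrix (Fin 2) (Fin 2) F) =
      !![1, -((ω₁ - 2) / ω₁); -ω₁, ω₁ - 1] := by
    change Q * ((1 / 2 : F) • !![ω₁, ω₁ + 2; ω₁ - 2, ω₁]) * P = _
    rw [hP, hQ, Matrix.mul_smul, Matrix.smul_mul, Matrix.mul_fin_two, Matrix.mul_fin_two,
      Matrix.smul_of]
    congr 1
    simp only [Matrix.smul_cons, smul_eq_mul, Matrix.smul_empty]
    congr 1 <;> [skip; congr 1] <;> congr 1 <;> [skip; congr 1; skip; congr 1] <;> field_simp <;>
      ring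
  have c₂ : (conjHom P Q hPQ S₂ : Matrix (Fin 2) (Fin 2) F) = !![1, 1; 0, 1] := by
    change Q * ((1 / 2 : F) • !![2 + ω₁, ω₁; -ω₁, 2 - ω₁]) * P = _
    rw [hP, hQ, Matrix.mul_smul, Matrix.smul_mul, Matrix.mul_fin_two, Matrix.mul_fin_two,
      Matrix.smul_of]
    congr 1
    simp only [Matrix.smul_cons, smul_eq_mul, Matrix.smul_empty]
    congr 1 <;> [skip; congr 1] <;> congr 1 <;> [skip; congr 1; skip; congr 1] <;> field_simp <;>
      ring
  have c₃ : (conjHom P Q hPQ S₃ : Matrix (Fin 2) (Fin 2) F) =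
      !![ω₂ * (ω₁ + 2) / (2 * ω₁) - s / (2 * ω₁), -(s / ω₁ ^ 2);
        -ω₂, ω₂ * (ω₁ - 2) / (2 * ω₁) + s / (2 * ω₁)] := by
    change Q * !![ω₂ / (2 * ω₁) * (ω₁ - 2), s / (2 * ω₁);
           s / (2 * ω₁), ω₂ / (2 * ω₁) * (ω₁ + 2)] * P = _
    rw [hP, hQ, Matrix.mul_fin_two, Matrix.mul_fin_two]
    congr 1
    congr 1 <;> [skip; congr 1] <;> congr 1 <;> [skip; congr 1; skip; congr 1] <;> field_simp <;>
      ring
  have cT : ∀ S : SL(2, F), (conjHom (P * T) (T' * Q) hPT S : Matrix (Fin 2) (Fin 2) F) =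
      T' * (conjHom P Q hPQ S : Matrix (Fin 2) (Fin 2) F) * T := by
    intro S
    change (T' * Q) * (S : Matrix (Fin 2) (Fin 2) F) * (P * T) =
      T' * (Q * (S : Matrix (Fin 2) (Fin 2) F) * P) * T
    simp only [Matrix.mul_assoc]
  have d₂ : (conjHom (P * T) (T' * Q) hPT S₂ : Matrix (Fin 2) (Fin 2) F) = !![1, 1; 0, 1] := by
    rw [cT, c₂, hT, hT', Matrix.mul_fin_two, Matrix.mul_fin_two]
    simp
  have d₃ : (conjHom (P * T) (T' * Q) hPT S₃ : Matrix (Fin 2) (Fin 2) F) =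
      !![0, 1 / ω₂; -ω₂, ω₂] := by
    rw [cT, c₃, hT, hT', Matrix.mul_fin_two, Matrix.mul_fin_two, hb]
    congr 1
    congr 1 <;> [skip; congr 1] <;> congr 1 <;> [skip; congr 1; skip; congr 1] <;> field_simp <;>
      [ring; linear_combination -hs; ring; ring]
  have hcl₁ : Subgroup.closure {S₁, S₂} ≤ (subSL K₁).comap (conjHom P Q hPQ) := by
    rw [Subgroup.closure_le]
    rintro S (rfl | rfl)
    · rw [SetLike.mem_coe, Subgroup.mem_comap]
      apply mem_subSL_of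
      rw [c₁]
      simp only [Matrix.of_apply, Matrix.cons_val', Matrix.cons_val_fin_one]
      intro i j
      fin_cases i <;> fin_cases j
      · exact one_mem _
      · exact neg_mem (div_mem (sub_mem hm₁ h2K₁) hm₁)
      · exact neg_mem hm₁
      · exact sub_mem hm₁ (one_mem _)
    · rw [SetLike.mem_coe, Subgroup.mem_comap]
      apply mem_subSL_of
      rw [c₂]
      intro i j
      fin_cases i <;> fin_cases j <;> simp
  have hcl₂ : Subgroup.closure {S₂, S₃} ≤ (subSL K₂).comap (conjHom (P * T) (T' * Q) hPT) := by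
    rw [Subgroup.closure_le]
    rintro S (rfl | rfl)
    · rw [SetLike.mem_coe, Subgroup.mem_comap]
      apply mem_subSL_of
      rw [d₂]
      intro i j
      fin_cases i <;> fin_cases j <;> simp
    · rw [SetLike.mem_coe, Subgroup.mem_comap]
      apply mem_subSL_of
      rw [d₃]
      intro i j
      fin_cases i <;> fin_cases j <;> simp [hm₂]
  -- the main computation
  have hmain : ∀ S S' : SL(2, F), S ∈ Subgroup.closure {S₁, S₂} →
      S' ∈ Subgroup.closure {S₂, S₃} → (S : PSL(2, F)) = (S' : PSL(2, F)) →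
      ∃ n : ℤ, (S : PSL(2, F)) = (S₂ : PSL(2, F)) ^ n := by
    intro S S' hS hS' hSS
    have e₁ := fun i j => entries_of_mem_subSL (Subgroup.mem_comap.mp (hcl₁ hS)) i j
    have e₂ := fun i j => entries_of_mem_subSL (Subgroup.mem_comap.mp (hcl₂ hS')) i j
    obtain ⟨r, hr, hrS⟩ := Matrix.SpecialLinearGroup.mem_center_iff.mp (QuotientGroup.eq.mp hSS)
    have hr2 : r * r = 1 := by
      rw [Fintype.card_fin] at hr
      rw [← hr]; ring
    have hrK : r ∈ K₂ := by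
      rcases mul_self_eq_one_iff.mp hr2 with h | h <;> rw [h]
      · exact one_mem _
      · exact neg_mem (one_mem _)
    have hSr : (S' : Matrix (Fin 2) (Fin 2) F) = r • (S : Matrix (Fin 2) (Fin 2) F) := by
      have h1 : S' = S * (S⁻¹ * S') := by group
      rw [h1, Matrix.SpecialLinearGroup.coe_mul, ← hrS, Matrix.scalar_apply,
        ← Matrix.smul_one_eq_diagonal, Matrix.mul_smul, Matrix.mul_one]
    have hcSr : (conjHom (P * T) (T' * Q) hPT S' : Matrix (Fin 2) (Fin 2) F) =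
        r • (T' * (conjHom P Q hPQ S : Matrix (Fin 2) (Fin 2) F) * T) := by
      rw [cT S']
      change T' * (Q * (S' : Matrix (Fin 2) (Fin 2) F) * P) * T =
        r • (T' * (Q * (S : Matrix (Fin 2) (Fin 2) F) * P) * T)
      rw [hSr]
      simp only [Matrix.mul_smul, Matrix.smul_mul]
    have hdetM : Matrix.det (conjHom P Q hPQ S : Matrix (Fin 2) (Fin 2) F) = 1 :=
      Matrix.SpecialLinearGroup.det_coe _
    rw [Matrix.det_fin_two] at hdetM
    obtain ⟨A, hA⟩ : ∃ A, A = (conjHom P Q hPQ S : Matrix (Fin 2) (Fin 2) F) 0 0 := ⟨_, rfl⟩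
    obtain ⟨B, hB⟩ : ∃ B, B = (conjHom P Q hPQ S : Matrix (Fin 2) (Fin 2) F) 0 1 := ⟨_, rfl⟩
    obtain ⟨C, hC⟩ : ∃ C, C = (conjHom P Q hPQ S : Matrix (Fin 2) (Fin 2) F) 1 0 := ⟨_, rfl⟩
    obtain ⟨D, hD⟩ : ∃ D, D = (conjHom P Q hPQ S : Matrix (Fin 2) (Fin 2) F) 1 1 := ⟨_, rfl⟩
    have hM : (conjHom P Q hPQ S : Matrix (Fin 2) (Fin 2) F) = !![A, B; C, D] := by
      rw [hA, hB, hC, hD]; exact Matrix.eta_fin_two _
    rw [← hA, ← hB, ← hC, ← hD] at hdetM
    have hAK : A ∈ K₁ := hA ▸ e₁ 0 0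
    have hBK : B ∈ K₁ := hB ▸ e₁ 0 1
    have hCK : C ∈ K₁ := hC ▸ e₁ 1 0
    have hDK : D ∈ K₁ := hD ▸ e₁ 1 1
    have hTMT : T' * !![A, B; C, D] * T =
        !![A - b * C, B + b * (A - D) - b ^ 2 * C; C, D + b * C] := by
      rw [hT, hT', Matrix.mul_fin_two, Matrix.mul_fin_two]
      congr 1
      congr 1 <;> [skip; congr 1] <;> congr 1 <;> [skip; congr 1; skip; congr 1] <;> ring
    rw [hM, hTMT] at hcSr
    have f₀₀ : A - b * C ∈ K₂ := by
      have h1 := e₂ 0 0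
      rw [hcSr] at h1
      have h2 : A - b * C = r * (r * (A - b * C)) := by rw [← mul_assoc, hr2, one_mul]
      rw [h2]
      refine mul_mem hrK ?_
      exact h1
    have f₁₀ : C ∈ K₂ := by
      have h1 := e₂ 1 0
      rw [hcSr] at h1
      have h2 : C = r * (r * C) := by rw [← mul_assoc, hr2, one_mul]
      rw [h2]
      refine mul_mem hrK ?_
      exact h1
    have f₁₁ : D + b * C ∈ K₂ := by
      have h1 := e₂ 1 1
      rw [hcSr] at h1
      have h2 : D + b * C = r * (r * (D + b * C)) := by rw [← mul_assoc, hr2, one_mul]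
      rw [h2]
      refine mul_mem hrK ?_
      exact h1
    have f₀₁ : B + b * (A - D) - b ^ 2 * C ∈ K₂ := by
      have h1 := e₂ 0 1
      rw [hcSr] at h1
      have h2 : B + b * (A - D) - b ^ 2 * C = r * (r * (B + b * (A - D) - b ^ 2 * C)) := by
        rw [← mul_assoc, hr2, one_mul]
      rw [h2]
      refine mul_mem hrK ?_
      exact h1
    have hC0 : C = 0 := by
      by_contra hC0
      apply hbkey (A / C) (div_mem hAK hCK) (-((A - b * C) / C))
        (neg_mem (div_mem f₀₀ f₁₀))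
      field_simp
      ring
    rw [hC0, mul_zero, sub_zero] at f₀₀
    rw [hC0, mul_zero, add_zero] at f₁₁
    rw [hC0, mul_zero, sub_zero] at f₀₁
    have hAD : A = D := by
      by_contra hAD
      have hAD' : A - D ≠ 0 := sub_ne_zero.mpr hAD
      apply hbkey (-(B / (A - D))) (neg_mem (div_mem hBK (sub_mem hAK hDK)))
        ((B + b * (A - D)) / (A - D)) (div_mem f₀₁ (sub_mem f₀₀ f₁₁))
      field_simp
      ring
    rw [← hAD, sub_self, mul_zero, add_zero] at f₀₁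
    rw [hC0, mul_zero, sub_zero, ← hAD] at hdetM
    have hABbot : A * B ∈ (⊥ : Subfield F) :=
      hbot _ (mul_mem hAK hBK) (mul_mem f₀₀ f₀₁)
    obtain ⟨n, hn⟩ := (mem_bot_iff_intCast p F).mp hABbot
    refine ⟨n, ?_⟩
    rw [← QuotientGroup.mk_zpow, QuotientGroup.eq, Matrix.SpecialLinearGroup.mem_center_iff]
    refine ⟨A, by rw [Fintype.card_fin, pow_two]; exact hdetM, ?_⟩
    have g₁ : conjHom P Q hPQ S₂ =
        Matrix.SpecialLinearGroup.map (Int.castRingHom F) ModularGroup.T := by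
      apply Subtype.ext
      rw [c₂]
      ext i j
      change _ = (Int.castRingHom F) ((!![1, 1; 0, 1] : Matrix (Fin 2) (Fin 2) ℤ) i j)
      fin_cases i <;> fin_cases j <;> simp
    have g₂ : (conjHom P Q hPQ (S₂ ^ n) : Matrix (Fin 2) (Fin 2) F) = !![1, (n : F); 0, 1] := by
      rw [map_zpow, g₁, ← map_zpow]
      change (Int.castRingHom F).mapMatrix ((ModularGroup.T ^ n).1) = _
      rw [ModularGroup.coe_T_zpow]
      ext i j
      fin_cases i <;> fin_cases j <;> simp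
    have g₃ : (conjHom P Q hPQ (S₂ ^ n) : Matrix (Fin 2) (Fin 2) F) =
        A • (conjHom P Q hPQ S : Matrix (Fin 2) (Fin 2) F) := by
      rw [g₂, hM, hC0, ← hAD, hn]
      ext i j
      fin_cases i <;> fin_cases j <;> simp [hdetM]
    have g₄ : ∀ S : SL(2, F), (S : Matrix (Fin 2) (Fin 2) F) =
        P * (conjHom P Q hPQ S : Matrix (Fin 2) (Fin 2) F) * Q := by
      intro S
      change (S : Matrix (Fin 2) (Fin 2) F) = P * (Q * (S : Matrix (Fin 2) (Fin 2) F) * P) * Q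
      have : P * (Q * (S : Matrix (Fin 2) (Fin 2) F) * P) * Q =
        (P * Q) * (S : Matrix (Fin 2) (Fin 2) F) * (P * Q) := by simp only [Matrix.mul_assoc]
      rw [this, hPQ, Matrix.one_mul, Matrix.mul_one]
    have g₅ : ((S₂ ^ n : SL(2, F)) : Matrix (Fin 2) (Fin 2) F) =
        A • (S : Matrix (Fin 2) (Fin 2) F) := by
      rw [g₄ (S₂ ^ n), g₃, g₄ S]
      simp only [Matrix.mul_smul, Matrix.smul_mul]
    rw [Matrix.SpecialLinearGroup.coe_mul, g₅, Matrix.mul_smul,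
      ← Matrix.SpecialLinearGroup.coe_mul, inv_mul_cancel, Matrix.SpecialLinearGroup.coe_one,
      Matrix.scalar_apply, Matrix.smul_one_eq_diagonal]
  apply le_antisymm
  · rintro g ⟨hg₁, hg₂⟩
    have im₁ : Subgroup.closure {(S₁ : PSL(2, F)), (S₂ : PSL(2, F))} =
        (Subgroup.closure {S₁, S₂}).map (QuotientGroup.mk' _) := by
      rw [MonoidHom.map_closure, Set.image_pair]
      rfl
    have im₂ : Subgroup.closure {(S₂ : PSL(2, F)), (S₃ : PSL(2, F))} =
        (Subgroup.closure {S₂, S₃}).map (QuotientGroup.mk' _) := by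
      rw [MonoidHom.map_closure, Set.image_pair]
      rfl
    rw [SetLike.mem_coe, im₁] at hg₁
    rw [SetLike.mem_coe, im₂] at hg₂
    obtain ⟨S, hS, rfl⟩ := hg₁
    obtain ⟨S', hS', hSS⟩ := hg₂
    obtain ⟨n, hn⟩ := hmain S S' hS hS' hSS.symm
    exact ⟨n, hn.symm⟩
  · rw [Subgroup.zpowers_le]
    exact ⟨Subgroup.subset_closure (by simp), Subgroup.subset_closure (by simp)⟩

end Pool.Agent.Results.MP_5bb224_al.IntersectionProperty
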